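import Mathlib
import Pool.Agent.N753.DR.Stm

/-!
# (DR/CORE) the radical of the value is almost always large
-/

set_option autoImplicit false

namespace Pool.Agent.N97.DR.Core

open NumberField IsDedekindDomain Module Pool.Agent.N753.DR

/-! ### Rare sets -/

/-- at most `C * B ^ (N - ν)` elements -/
def Rare {X : Type} (N : ℝ) (E : ℕ → Set X) : Prop :=
  ∃ ν C : ℝ, 0 < ν ∧ ∀ B : ℕ, 1 ≤ B → ((E B).ncard : ℝ) ≤ C * (B : ℝ) ^ (N - ν)

lemma rpow_le_rpow_nat {B : ℕ} (hB : 1 ≤ B) {x y : ℝ} (h : x ≤ y) : (B : ℝ) ^ x ≤ (B : ℝ) ^ y :=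
  Real.rpow_le_rpow_of_exponent_le (by exact_mod_cast hB) h

lemma Rare.union {X : Type} {N : ℝ} {E F : ℕ → Set X} (hE : Rare N E) (hF : Rare N F) :
    Rare N (fun B => E B ∪ F B) := by
  obtain ⟨ν, C, hν, h⟩ := hE
  obtain ⟨ν', C', hν', h'⟩ := hF
  refine ⟨min ν ν', |C| + |C'|, lt_min hν hν', fun B hB => ?_⟩
  have h1 : (B : ℝ) ^ (N - ν) ≤ (B : ℝ) ^ (N - min ν ν') :=
    rpow_le_rpow_nat hB (by have := min_le_left ν ν'; linarith)
  have h2 : (B : ℝ) ^ (N - ν') ≤ (B : ℝ) ^ (N - min ν ν') :=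
    rpow_le_rpow_nat hB (by have := min_le_right ν ν'; linarith)
  have h3 : (0 : ℝ) ≤ (B : ℝ) ^ (N - ν) := by positivity
  have h4 : (0 : ℝ) ≤ (B : ℝ) ^ (N - ν') := by positivity
  have h5 : (((E B ∪ F B).ncard : ℕ) : ℝ) ≤ (E B).ncard + (F B).ncard := by
    exact_mod_cast Set.ncard_union_le (E B) (F B)
  calc (((E B ∪ F B).ncard : ℕ) : ℝ) ≤ (E B).ncard + (F B).ncard := h5
    _ ≤ C * (B : ℝ) ^ (N - ν) + C' * (B : ℝ) ^ (N - ν') := add_le_add (h B hB) (h' B hB)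
    _ ≤ |C| * (B : ℝ) ^ (N - ν) + |C'| * (B : ℝ) ^ (N - ν') :=
        add_le_add (mul_le_mul_of_nonneg_right (le_abs_self C) h3)
          (mul_le_mul_of_nonneg_right (le_abs_self C') h4)
    _ ≤ |C| * (B : ℝ) ^ (N - min ν ν') + |C'| * (B : ℝ) ^ (N - min ν ν') :=
        add_le_add (mul_le_mul_of_nonneg_left h1 (abs_nonneg _))
          (mul_le_mul_of_nonneg_left h2 (abs_nonneg _))
    _ = _ := by ring

lemma Rare.empty {X : Type} (N : ℝ) : Rare N (fun _ => (∅ : Set X)) :=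
  ⟨1, 0, one_pos, fun B _ => by simp⟩

lemma Rare.biUnion {X J : Type} {N : ℝ} (s : Finset J) {E : J → ℕ → Set X}
    (h : ∀ j ∈ s, Rare N (E j)) : Rare N (fun B => ⋃ j ∈ s, E j B) := by
  classical
  induction s using Finset.induction_on with
  | empty => simpa using Rare.empty N
  | insert j s hj ih =>
    have h1 := (h j (Finset.mem_insert_self _ _)).union
      (ih fun i hi => h i (Finset.mem_insert_of_mem hi))
    have e : (fun B => ⋃ i ∈ insert j s, E i B) = fun B => E j B ∪ ⋃ i ∈ s, E i B := by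
      funext B
      exact Finset.set_biUnion_insert _ _ _
    rw [e]
    exact h1

lemma Rare.of_large {X : Type} {N : ℝ} (hN : 1 ≤ N) {E F : ℕ → Set X} (hF : Rare N F) (B₀ : ℕ)
    (hfin : ∀ B, (F B).Finite) (hsub : ∀ B, B₀ ≤ B → E B ⊆ F B) : Rare N E := by
  obtain ⟨ν, C, hν, h⟩ := hF
  refine ⟨min ν 1, |C| + ∑ B ∈ Finset.range B₀, ((E B).ncard : ℝ), lt_min hν one_pos,
    fun B hB => ?_⟩
  have hS : 0 ≤ ∑ B ∈ Finset.range B₀, ((E B).ncard : ℝ) :=
    Finset.sum_nonneg fun _ _ => Nat.cast_nonneg _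
  rcases lt_or_ge B B₀ with hlt | hge
  · have h1 : ((E B).ncard : ℝ) ≤ ∑ B ∈ Finset.range B₀, ((E B).ncard : ℝ) :=
      Finset.single_le_sum (f := fun B => ((E B).ncard : ℝ)) (fun _ _ => Nat.cast_nonneg _)
        (Finset.mem_range.2 hlt)
    have h2 : 1 ≤ (B : ℝ) ^ (N - min ν 1) := by
      refine Real.one_le_rpow (by exact_mod_cast hB) ?_
      have := min_le_right ν 1
      linarith
    have h3 := abs_nonneg C
    calc ((E B).ncard : ℝ) ≤ (|C| + ∑ B ∈ Finset.range B₀, ((E B).ncard : ℝ)) * 1 := by linarith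
      _ ≤ _ := mul_le_mul_of_nonneg_left h2 (by linarith)
  · have h1 : ((E B).ncard : ℝ) ≤ (F B).ncard := by
      exact_mod_cast Set.ncard_le_ncard (hsub B hge) (hfin B)
    have h2 : (B : ℝ) ^ (N - ν) ≤ (B : ℝ) ^ (N - min ν 1) :=
      rpow_le_rpow_nat hB (by have := min_le_left ν 1; linarith)
    have h3 : (0 : ℝ) ≤ (B : ℝ) ^ (N - ν) := by positivity
    have h4 : (0 : ℝ) ≤ (B : ℝ) ^ (N - min ν 1) := by positivity
    calc ((E B).ncard : ℝ) ≤ C * (B : ℝ) ^ (N - ν) := h1.trans (h B hB)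
      _ ≤ |C| * (B : ℝ) ^ (N - ν) := mul_le_mul_of_nonneg_right (le_abs_self C) h3
      _ ≤ |C| * (B : ℝ) ^ (N - min ν 1) := mul_le_mul_of_nonneg_left h2 (abs_nonneg _)
      _ ≤ _ := mul_le_mul_of_nonneg_right (by linarith) h4

/-! ### The box -/

section box

variable {K : Type} [Field K] [NumberField K]

lemma sz_finite (B : ℕ) : {z : 𝓞 K | sz z ≤ B}.Finite := by
  have h1 : (Set.pi Set.univ fun _ : Free.ChooseBasisIndex ℤ (𝓞 K) =>
      Set.Icc (-(B : ℤ)) B).Finite := Set.Finite.pi fun _ => Set.finite_Icc _ _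
  refine (h1.preimage (f := fun z : 𝓞 K => ⇑((RingOfIntegers.basis K).repr z)) ?_).subset ?_
  · intro x _ y _ h
    exact (RingOfIntegers.basis K).repr.injective (DFunLike.coe_injective h)
  · intro z hz
    rw [Set.mem_preimage, Set.mem_pi]
    intro i _
    have h2 : ((RingOfIntegers.basis K).repr z i).natAbs ≤ sz z :=
      Finset.le_sup (f := fun i => ((RingOfIntegers.basis K).repr z i).natAbs) (Finset.mem_univ i)
    have h3 : ((RingOfIntegers.basis K).repr z i).natAbs ≤ B := h2.trans hz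
    rw [Set.mem_Icc]
    omega

lemma Bx_finite (m B : ℕ) : (Bx K m B).Finite := Set.Finite.pi' fun _ => sz_finite B

lemma norm_le_sz (τ : 𝓞 K →+* ℂ) (z : 𝓞 K) :
    ‖τ z‖ ≤ (∑ i, ‖τ (RingOfIntegers.basis K i)‖) * sz z := by
  have h1 : z = ∑ i, (RingOfIntegers.basis K).repr z i • RingOfIntegers.basis K i :=
    ((RingOfIntegers.basis K).sum_repr z).symm
  calc ‖τ z‖ = ‖∑ i, τ ((RingOfIntegers.basis K).repr z i • RingOfIntegers.basis K i)‖ := by
        rw [← map_sum, ← h1]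
    _ ≤ ∑ i, ‖τ ((RingOfIntegers.basis K).repr z i • RingOfIntegers.basis K i)‖ := norm_sum_le _ _
    _ ≤ ∑ i, ‖τ (RingOfIntegers.basis K i)‖ * sz z := by
        refine Finset.sum_le_sum fun i _ => ?_
        have h2 : ((RingOfIntegers.basis K).repr z i).natAbs ≤ sz z :=
          Finset.le_sup (f := fun i => ((RingOfIntegers.basis K).repr z i).natAbs)
            (Finset.mem_univ i)
        rw [zsmul_eq_mul, map_mul, map_intCast, norm_mul, mul_comm]
        refine mul_le_mul_of_nonneg_left ?_ (norm_nonneg _)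
        rw [Complex.norm_intCast]
        have h3 : |(((RingOfIntegers.basis K).repr z i : ℤ) : ℝ)| =
            (((RingOfIntegers.basis K).repr z i).natAbs : ℝ) := by
          rw [Nat.cast_natAbs, Int.cast_abs]
        rw [h3]
        exact_mod_cast h2
    _ = _ := by rw [Finset.sum_mul]

end box

section ev

variable {K L : Type} [Field K] [NumberField K] [Field L] [NumberField L] [Algebra K L]

lemma ev_le (θ : 𝓞 L) (a r : ℕ) : ∃ C₁ : ℝ, 1 ≤ C₁ ∧ ∀ (B : ℕ) (c : Fin (r + 1) → 𝓞 K),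
    c ∈ Bx K (r + 1) B → ∀ w : InfinitePlace L, w (ev a θ c : L) ≤ C₁ * B := by
  let τ : InfinitePlace L → 𝓞 L →+* ℂ := fun w => w.embedding.comp (algebraMap (𝓞 L) L)
  let A : InfinitePlace L → ℝ := fun w =>
    ∑ i, ‖((τ w).comp (algebraMap (𝓞 K) (𝓞 L))) (RingOfIntegers.basis K i)‖
  have hA : ∀ w, 0 ≤ A w := fun w => Finset.sum_nonneg fun _ _ => norm_nonneg _
  let D : InfinitePlace L → ℝ := fun w =>
    ∑ i : Fin (r + 1), A w * ((a : ℝ) ^ (r - (i : ℕ)) * ‖τ w θ‖ ^ (i : ℕ))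
  have hD : ∀ w, 0 ≤ D w := fun w => Finset.sum_nonneg fun _ _ =>
    mul_nonneg (hA w) (mul_nonneg (pow_nonneg (Nat.cast_nonneg _) _) (pow_nonneg (norm_nonneg _) _))
  refine ⟨1 + ∑ w, D w, ?_, fun B c hc w => ?_⟩
  · have := Finset.sum_nonneg (s := Finset.univ) fun w _ => hD w
    linarith
  · have h1 : w (ev a θ c : L) = ‖τ w (ev a θ c)‖ := (InfinitePlace.norm_embedding_eq w _).symm
    have h2 : τ w (ev a θ c) = ∑ i : Fin (r + 1), (τ w) (algebraMap (𝓞 K) (𝓞 L) (c i)) *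
        ((a : ℂ) ^ (r - (i : ℕ)) * (τ w θ) ^ (i : ℕ)) := by
      unfold ev evS
      rw [AddMonoidHom.coe_mk, ZeroHom.coe_mk, map_sum]
      refine Finset.sum_congr rfl fun i _ => ?_
      rw [map_mul, map_mul, map_pow, map_pow, map_natCast]
    have h3 : D w ≤ ∑ w, D w := Finset.single_le_sum (fun w _ => hD w) (Finset.mem_univ w)
    rw [h1, h2]
    calc ‖∑ i : Fin (r + 1), (τ w) (algebraMap (𝓞 K) (𝓞 L) (c i)) *
          ((a : ℂ) ^ (r - (i : ℕ)) * (τ w θ) ^ (i : ℕ))‖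
        ≤ ∑ i : Fin (r + 1), ‖(τ w) (algebraMap (𝓞 K) (𝓞 L) (c i)) *
          ((a : ℂ) ^ (r - (i : ℕ)) * (τ w θ) ^ (i : ℕ))‖ := norm_sum_le _ _
      _ ≤ ∑ i : Fin (r + 1), A w * ((a : ℝ) ^ (r - (i : ℕ)) * ‖τ w θ‖ ^ (i : ℕ)) * B := by
          refine Finset.sum_le_sum fun i _ => ?_
          rw [norm_mul, norm_mul, norm_pow, norm_pow, Complex.norm_natCast]
          have h4 := norm_le_sz ((τ w).comp (algebraMap (𝓞 K) (𝓞 L))) (c i)
          have h5 : (sz (c i) : ℝ) ≤ B := by exact_mod_cast hc i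
          have h6 : ‖(τ w) (algebraMap (𝓞 K) (𝓞 L) (c i))‖ ≤ A w * B :=
            h4.trans (mul_le_mul_of_nonneg_left h5 (hA w))
          have h7 : (0 : ℝ) ≤ (a : ℝ) ^ (r - (i : ℕ)) * ‖τ w θ‖ ^ (i : ℕ) :=
            mul_nonneg (pow_nonneg (Nat.cast_nonneg _) _) (pow_nonneg (norm_nonneg _) _)
          calc ‖(τ w) (algebraMap (𝓞 K) (𝓞 L) (c i))‖ *
                ((a : ℝ) ^ (r - (i : ℕ)) * ‖τ w θ‖ ^ (i : ℕ)) ≤
              (A w * B) * ((a : ℝ) ^ (r - (i : ℕ)) * ‖τ w θ‖ ^ (i : ℕ)) :=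
                mul_le_mul_of_nonneg_right h6 h7
            _ = _ := by ring
      _ = D w * B := by rw [← Finset.sum_mul]
      _ ≤ (1 + ∑ w, D w) * B := mul_le_mul_of_nonneg_right (by linarith) (Nat.cast_nonneg _)

end ev

/-! ### The norm -/

section norm

variable {L : Type} [Field L] [NumberField L]

lemma log_norm {y : 𝓞 L} (hy : y ≠ 0) :
    Real.log (Ideal.absNorm (Ideal.span {y}) : ℝ) =
      ∑ w : InfinitePlace L, (w.mult : ℝ) * Real.log (w (y : L)) := by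
  have hy' : (y : L) ≠ 0 := by
    rw [Ne, RingOfIntegers.coe_eq_zero_iff]; exact hy
  have h1 := InfinitePlace.prod_eq_abs_norm (y : L)
  have h2 : ((Ideal.absNorm (Ideal.span {y}) : ℕ) : ℝ) = |((Algebra.norm ℚ (y : L) : ℚ) : ℝ)| := by
    rw [Ideal.absNorm_span_singleton, Nat.cast_natAbs, ← Algebra.coe_norm_int, Int.cast_abs]
    push_cast
    rfl
  rw [h2, ← Rat.cast_abs, ← h1, Real.log_prod]
  · refine Finset.sum_congr rfl fun w _ => ?_
    rw [Real.log_pow]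
  · intro w _
    exact pow_ne_zero _ ((map_ne_zero w).2 hy')

/-- the exponent of `w` in the factorisation of `y` -/
noncomputable def ex (y : 𝓞 L) (w : HeightOneSpectrum (𝓞 L)) : ℕ :=
  (Associates.mk w.asIdeal).count (Associates.mk (Ideal.span {y})).factors

/-- the primes dividing `y` -/
noncomputable def dv {y : 𝓞 L} (hy : Ideal.span {y} ≠ 0) : Finset (HeightOneSpectrum (𝓞 L)) :=
  (Ideal.finite_factors hy).toFinset

lemma mem_dv {y : 𝓞 L} (hy : Ideal.span {y} ≠ 0) (w : HeightOneSpectrum (𝓞 L)) :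
    w ∈ dv hy ↔ y ∈ w.asIdeal := by
  unfold dv
  rw [Set.Finite.mem_toFinset, Set.mem_ofPred_eq, Ideal.dvd_span_singleton]

lemma ex_pos {y : 𝓞 L} (hy : Ideal.span {y} ≠ 0) {w : HeightOneSpectrum (𝓞 L)} (hw : w ∈ dv hy) :
    1 ≤ ex y w := by
  unfold dv at hw
  rw [Set.Finite.mem_toFinset, Set.mem_ofPred_eq] at hw
  exact Nat.one_le_iff_ne_zero.2 ((Associates.count_ne_zero_iff_dvd hy w.irreducible).2 hw)

lemma prod_dv {y : 𝓞 L} (hy : Ideal.span {y} ≠ 0) :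
    Ideal.span {y} = ∏ w ∈ dv hy, w.asIdeal ^ ex y w := by
  conv_lhs => rw [← Ideal.finprod_heightOneSpectrum_factorization hy]
  refine finprod_eq_prod_of_mulSupport_subset _ ?_
  intro w hw
  rw [Finset.mem_coe]
  by_contra hcon
  apply hw
  unfold dv at hcon
  rw [Set.Finite.mem_toFinset, Set.mem_ofPred_eq] at hcon
  have h1 : ex y w = 0 := by
    by_contra h
    exact hcon ((Associates.count_ne_zero_iff_dvd hy w.irreducible).1 h)
  show w.asIdeal ^ ex y w = 1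
  rw [h1, pow_zero]

lemma mem_pow_ex {y : 𝓞 L} (hy : Ideal.span {y} ≠ 0) {w : HeightOneSpectrum (𝓞 L)}
    (hw : w ∈ dv hy) : y ∈ w.asIdeal ^ ex y w := by
  rw [← Ideal.dvd_span_singleton]
  conv_rhs => rw [prod_dv hy]
  exact Finset.dvd_prod_of_mem _ hw

lemma log_norm_fin {y : 𝓞 L} (hy : Ideal.span {y} ≠ 0) :
    Real.log (Ideal.absNorm (Ideal.span {y}) : ℝ) = ∑ w ∈ dv hy, ex y w * lN w := by
  conv_lhs => rw [prod_dv hy]
  rw [map_prod, Nat.cast_prod, Real.log_prod]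
  · refine Finset.sum_congr rfl fun w _ => ?_
    rw [map_pow, Nat.cast_pow, Real.log_pow]
    rfl
  · intro w _
    have h1 : Ideal.absNorm w.asIdeal ≠ 0 := by
      rw [Ne, Ideal.absNorm_eq_zero_iff]
      exact w.ne_bot
    exact_mod_cast (by rw [map_pow]; exact pow_ne_zero _ h1 : Ideal.absNorm (w.asIdeal ^ ex y w) ≠ 0)

lemma lN_nonneg (v : HeightOneSpectrum (𝓞 L)) : 0 ≤ lN v := Real.log_natCast_nonneg _

end norm

/-! ### The main inequality -/

section key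

variable {K L : Type} [Field K] [NumberField K] [Field L] [NumberField L] [Algebra K L]

/-- the prime below -/
noncomputable def bl (w : HeightOneSpectrum (𝓞 L)) : HeightOneSpectrum (𝓞 K) :=
  HeightOneSpectrum.under (𝓞 K) w

omit [NumberField K] [NumberField L] in
lemma bl_over (w : HeightOneSpectrum (𝓞 L)) : w.asIdeal.LiesOver (bl (K := K) w).asIdeal := ⟨rfl⟩

lemma mem_mul {w w' : HeightOneSpectrum (𝓞 L)} (h : w' ≠ w) {y : 𝓞 L} (h1 : y ∈ w.asIdeal)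
    (h2 : y ∈ w'.asIdeal) : y ∈ w.asIdeal * w'.asIdeal := by
  have hw : w.asIdeal.IsMaximal := w.isMaximal
  have hw' : w'.asIdeal.IsMaximal := w'.isMaximal
  have hcop : IsCoprime w.asIdeal w'.asIdeal := by
    rw [Ideal.isCoprime_iff_sup_eq]
    exact Ideal.IsMaximal.coprime_of_ne hw hw' fun h3 => h (HeightOneSpectrum.ext h3.symm)
  rw [Ideal.mul_eq_inf_of_coprime (Ideal.isCoprime_iff_sup_eq.1 hcop)]
  exact ⟨h1, h2⟩

/-- the primes without double zeros -/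
lemma good_part (θ : 𝓞 L) (a r : ℕ) (c : Fin (r + 1) → 𝓞 K) (Bad W : Finset (HeightOneSpectrum (𝓞 K)))
    (hW : ∀ v ∉ Bad, ∀ w : HeightOneSpectrum (𝓞 L), w.asIdeal.LiesOver v.asIdeal →
        ev a θ c ∈ w.asIdeal → v ∈ W)
    (hy : Ideal.span {ev a θ c} ≠ 0) (F : Finset (HeightOneSpectrum (𝓞 L))) (hF : F ⊆ dv hy)
    (h1 : ∀ w ∈ F, bl (K := K) w ∉ Bad) (h2 : ∀ w ∈ F, ¬ NS a θ c (bl (K := K) w)) :
    ∑ w ∈ F, ex (ev a θ c) w * lN w ≤ ∑ v ∈ W, lN v := by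
  classical
  have hmem : ∀ w ∈ F, ev a θ c ∈ w.asIdeal := fun w hw => (mem_dv hy w).1 (hF hw)
  have hterm : ∀ w ∈ F, ex (ev a θ c) w * lN w ≤ lN (bl (K := K) w) := by
    intro w hw
    have he : ex (ev a θ c) w ≤ 1 := by
      by_contra hcon
      push Not at hcon
      refine h2 w hw ⟨w.asIdeal ^ 2, ⟨w, bl_over w, Or.inl rfl⟩, ?_⟩
      exact Ideal.pow_le_pow_right hcon (mem_pow_ex hy (hF hw))
    have hN : Ideal.absNorm w.asIdeal ≤ Ideal.absNorm (bl (K := K) w).asIdeal := by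
      by_contra hcon
      push Not at hcon
      exact h2 w hw ⟨w.asIdeal, ⟨w, bl_over w, Or.inr (Or.inr ⟨rfl, hcon⟩)⟩, hmem w hw⟩
    have h3 : lN w ≤ lN (bl (K := K) w) := by
      unfold lN
      have h0 : Ideal.absNorm w.asIdeal ≠ 0 := by
        rw [Ne, Ideal.absNorm_eq_zero_iff]
        exact w.ne_bot
      exact Real.log_le_log (by exact_mod_cast Nat.pos_of_ne_zero h0) (by exact_mod_cast hN)
    have h4 : (ex (ev a θ c) w : ℝ) ≤ 1 := by exact_mod_cast he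
    calc ex (ev a θ c) w * lN w ≤ 1 * lN w := mul_le_mul_of_nonneg_right h4 (lN_nonneg w)
      _ ≤ _ := by rw [one_mul]; exact h3
  have hinj : Set.InjOn (bl (K := K)) (F : Set (HeightOneSpectrum (𝓞 L))) := by
    intro w hw w' hw' h
    by_contra hne
    refine h2 w hw ⟨w.asIdeal * w'.asIdeal, ⟨w, bl_over w, Or.inr (Or.inl ⟨w', ?_, Ne.symm hne, rfl⟩)⟩,
      mem_mul (Ne.symm hne) (hmem w hw) (hmem w' hw')⟩
    rw [h]
    exact bl_over w'
  calc ∑ w ∈ F, ex (ev a θ c) w * lN w ≤ ∑ w ∈ F, lN (bl (K := K) w) := Finset.sum_le_sum hterm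
    _ = ∑ v ∈ F.image (bl (K := K)), lN v := (Finset.sum_image hinj).symm
    _ ≤ ∑ v ∈ W, lN v := by
        refine Finset.sum_le_sum_of_subset_of_nonneg ?_ fun v _ _ => lN_nonneg v
        intro v hv
        obtain ⟨w, hw, rfl⟩ := Finset.mem_image.1 hv
        exact hW _ (h1 w hw) w (bl_over w) (hmem w hw)

/-- large primes have no double zeros -/
lemma no_large (θ : 𝓞 L) (a r : ℕ) (c : Fin (r + 1) → 𝓞 K)
    (hy : Ideal.span {ev a θ c} ≠ 0) (s B : ℕ) (hB : 1 ≤ B) (C₁ δ : ℝ) (hC₁ : 1 ≤ C₁)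
    (hup : ∀ w : InfinitePlace L, w (ev a θ c : L) ≤ C₁ * B)
    (hs : (finrank ℚ L : ℝ) + 1 / 2 ≤ 2 * ((finrank ℚ K : ℝ) * s - δ))
    (hBC : C₁ ^ (2 * finrank ℚ L) < B) (v : HeightOneSpectrum (𝓞 K))
    (htyp : ∀ b : Ideal (𝓞 L), IsTyp v b → b ≠ ⊥ ∧ Ideal.absNorm v.asIdeal ^ 2 ≤ Ideal.absNorm b)
    (hNS : NS a θ c v) :
    (Ideal.absNorm v.asIdeal : ℝ) ≤ (B : ℝ) ^ ((finrank ℚ K : ℝ) * s - δ) := by
  by_contra hcon
  push Not at hcon
  obtain ⟨b, hb, hyb⟩ := hNS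
  obtain ⟨hb0, hbN⟩ := htyp b hb
  have hB1 : (1 : ℝ) ≤ B := by exact_mod_cast hB
  have hB0 : (0 : ℝ) < B := by linarith
  have hy0 : ev a θ c ≠ 0 := by
    intro h
    apply hy
    rw [h]
    exact Ideal.span_singleton_eq_bot.2 rfl
  -- the norm of `y`
  have hNy0 : Ideal.absNorm (Ideal.span {ev a θ c}) ≠ 0 := by
    rw [Ne, Ideal.absNorm_eq_zero_iff]
    exact hy
  have h1 : Ideal.absNorm b ≤ Ideal.absNorm (Ideal.span {ev a θ c}) :=
    Nat.le_of_dvd (Nat.pos_of_ne_zero hNy0)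
      (Ideal.absNorm_dvd_absNorm_of_le ((Ideal.span_singleton_le_iff_mem b).2 hyb))
  have h2 : Real.log (Ideal.absNorm (Ideal.span {ev a θ c}) : ℝ) ≤
      finrank ℚ L * Real.log (C₁ * B) := by
    rw [log_norm hy0, ← InfinitePlace.sum_mult_eq, Nat.cast_sum, Finset.sum_mul]
    refine Finset.sum_le_sum fun w _ => ?_
    refine mul_le_mul_of_nonneg_left ?_ (Nat.cast_nonneg _)
    refine Real.log_le_log ?_ (hup w)
    exact w.pos_iff.2 (by rw [Ne, RingOfIntegers.coe_eq_zero_iff]; exact hy0)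
  have h3 : Real.log ((Ideal.absNorm v.asIdeal : ℝ) ^ 2) ≤ finrank ℚ L * Real.log (C₁ * B) := by
    refine le_trans ?_ h2
    have h4 : (0 : ℝ) < (Ideal.absNorm v.asIdeal : ℝ) := lt_trans (by positivity) hcon
    refine Real.log_le_log (by positivity) ?_
    exact_mod_cast hbN.trans h1
  have h5 : ((finrank ℚ K : ℝ) * s - δ) * Real.log B < Real.log (Ideal.absNorm v.asIdeal : ℝ) := by
    rw [← Real.log_rpow hB0]
    exact Real.log_lt_log (by positivity) hcon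
  have h6 : (2 * (finrank ℚ L : ℝ)) * Real.log C₁ < Real.log B := by
    have h7 := Real.log_lt_log (by positivity) hBC
    rw [Real.log_pow] at h7
    push_cast at h7
    exact h7
  rw [Real.log_pow, Real.log_mul (by linarith) (by linarith)] at h3
  push_cast at h3
  have hlB : 0 ≤ Real.log B := Real.log_nonneg hB1
  have h8 : ((finrank ℚ L : ℝ) + 1 / 2) * Real.log B ≤
      (2 * ((finrank ℚ K : ℝ) * s - δ)) * Real.log B := mul_le_mul_of_nonneg_right hs hlB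
  nlinarith

/-- the main inequality -/
lemma key (θ : 𝓞 L) (a r : ℕ) (c : Fin (r + 1) → 𝓞 K)
    (Bad W : Finset (HeightOneSpectrum (𝓞 K)))
    (hW : ∀ v ∉ Bad, ∀ w : HeightOneSpectrum (𝓞 L), w.asIdeal.LiesOver v.asIdeal →
        ev a θ c ∈ w.asIdeal → v ∈ W)
    (WB : Finset (HeightOneSpectrum (𝓞 L))) (hWB : ∀ w, bl (K := K) w ∈ Bad → w ∈ WB)
    (B : ℕ) (hB : 2 ≤ B) (η δ : ℝ) (hη : 0 < η)
    (hlow : ∀ w : InfinitePlace L, (B : ℝ) ^ (1 - η) < w (ev a θ c : L))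
    (hbad : ∀ w ∈ WB, ∀ e : ℕ, 1 ≤ e → ev a θ c ∈ w.asIdeal ^ e → e * lN w < η * Real.log B)
    (hsmall : ∀ F : Finset (HeightOneSpectrum (𝓞 L)), (∀ w ∈ F, bl (K := K) w ∉ Bad ∧
      (Ideal.absNorm (bl (K := K) w).asIdeal : ℝ) ≤ (B : ℝ) ^ δ ∧ NS a θ c (bl (K := K) w)) →
      ∀ e : HeightOneSpectrum (𝓞 L) → ℕ, (∀ w ∈ F, ev a θ c ∈ w.asIdeal ^ e w) →
        ∑ w ∈ F, e w * lN w < η * Real.log B)
    (hlarge : ∀ v ∉ Bad, NS a θ c v → (Ideal.absNorm v.asIdeal : ℝ) ≤ (B : ℝ) ^ δ) :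
    ((finrank ℚ L : ℝ) * (1 - η) - (WB.card + 1) * η) * Real.log B ≤ ∑ v ∈ W, lN v := by
  classical
  have hB1 : (2 : ℝ) ≤ B := by exact_mod_cast hB
  have hB0 : (0 : ℝ) < B := by linarith
  have hlB : 0 < Real.log B := Real.log_pos (by linarith)
  have hy0 : ev a θ c ≠ 0 := by
    intro h
    obtain ⟨w⟩ : Nonempty (InfinitePlace L) := inferInstance
    have h1 := hlow w
    have hz : w (((0 : 𝓞 L)) : L) = 0 := by simp
    rw [h, hz] at h1
    have h2 : (0 : ℝ) ≤ (B : ℝ) ^ (1 - η) := by positivity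
    linarith
  have hy : Ideal.span {ev a θ c} ≠ 0 := fun h => hy0 (Ideal.span_singleton_eq_bot.1 h)
  -- the lower bound for the norm
  have h1 : ((finrank ℚ L : ℝ) * (1 - η)) * Real.log B ≤
      ∑ w ∈ dv hy, ex (ev a θ c) w * lN w := by
    rw [← log_norm_fin hy, log_norm hy0, ← InfinitePlace.sum_mult_eq, Nat.cast_sum,
      Finset.sum_mul, Finset.sum_mul]
    refine Finset.sum_le_sum fun w _ => ?_
    rw [mul_assoc]
    refine mul_le_mul_of_nonneg_left ?_ (Nat.cast_nonneg _)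
    rw [← Real.log_rpow hB0]
    exact Real.log_le_log (by positivity) (hlow w).le
  -- the three parts
  set P : HeightOneSpectrum (𝓞 L) → Prop := fun w => bl (K := K) w ∈ Bad with hP
  set Q : HeightOneSpectrum (𝓞 L) → Prop := fun w => NS a θ c (bl (K := K) w) with hQ
  have h2 : ∑ w ∈ (dv hy).filter P, ex (ev a θ c) w * lN w ≤ WB.card * (η * Real.log B) := by
    have h3 : (dv hy).filter P ⊆ WB := fun w hw => hWB w (Finset.mem_filter.1 hw).2
    calc ∑ w ∈ (dv hy).filter P, ex (ev a θ c) w * lN w ≤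
          ∑ w ∈ (dv hy).filter P, η * Real.log B := by
          refine Finset.sum_le_sum fun w hw => ?_
          have h4 := (Finset.mem_filter.1 hw).1
          exact (hbad w (h3 hw) _ (ex_pos hy h4) (mem_pow_ex hy h4)).le
      _ = ((dv hy).filter P).card * (η * Real.log B) := by rw [Finset.sum_const, nsmul_eq_mul]
      _ ≤ WB.card * (η * Real.log B) := by
          refine mul_le_mul_of_nonneg_right ?_ (by positivity)
          exact_mod_cast Finset.card_le_card h3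
  have h3 : ∑ w ∈ ((dv hy).filter fun w => ¬ P w).filter Q, ex (ev a θ c) w * lN w <
      η * Real.log B := by
    refine hsmall _ (fun w hw => ?_) _ (fun w hw => ?_)
    · have h4 := (Finset.mem_filter.1 hw).2
      have h5 := (Finset.mem_filter.1 (Finset.mem_filter.1 hw).1).2
      exact ⟨h5, hlarge _ h5 h4, h4⟩
    · exact mem_pow_ex hy (Finset.mem_filter.1 (Finset.mem_filter.1 hw).1).1
  have h4 : ∑ w ∈ ((dv hy).filter fun w => ¬ P w).filter (fun w => ¬ Q w),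
      ex (ev a θ c) w * lN w ≤ ∑ v ∈ W, lN v := by
    refine good_part θ a r c Bad W hW hy _ ?_ (fun w hw => ?_) (fun w hw => ?_)
    · exact (Finset.filter_subset _ _).trans (Finset.filter_subset _ _)
    · exact (Finset.mem_filter.1 (Finset.mem_filter.1 hw).1).2
    · exact (Finset.mem_filter.1 hw).2
  have h5 := Finset.sum_filter_add_sum_filter_not (dv hy) P fun w => ex (ev a θ c) w * lN w
  have h6 := Finset.sum_filter_add_sum_filter_not ((dv hy).filter fun w => ¬ P w) Q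
    fun w => ex (ev a θ c) w * lN w
  nlinarith

end key

/-- **(DR/CORE)** -/
theorem t (h1 : StmTyp) (h2 : StmLarge) (h3 : StmSmall) (h4 : StmPlaces) : StmCore := by
  intro K L _ _ _ _ _ θ a r hθ ha hr hk
  classical
  have hfd : FiniteDimensional K L := Module.Finite.of_restrictScalars_finite ℚ K L
  have hk1 : 1 ≤ finrank K L := finrank_pos
  have hn1 : 1 ≤ finrank ℚ K := finrank_pos
  have hnk : finrank ℚ K * finrank K L = finrank ℚ L := Module.finrank_mul_finrank ℚ K L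
  obtain ⟨Bad1, hB1⟩ := h1 K L θ a r hθ ha hr
  obtain ⟨Bad2, hB2⟩ := h2 K L θ a r (min (r + 1) (finrank K L)) hθ ha hr (by omega) (by omega)
    (by omega) (by omega)
  obtain ⟨Bad3, hB3⟩ := h3 K L θ a r hθ ha hr
  refine ⟨Bad1 ∪ Bad2 ∪ Bad3, fun Bad hBad κ hκ => ?_⟩
  have hs1 : ∀ v ∉ Bad, v ∉ Bad1 := fun v hv h => hv (hBad (by
    rw [Finset.mem_union, Finset.mem_union]; exact Or.inl (Or.inl h)))
  have hs2 : ∀ v ∉ Bad, v ∉ Bad2 := fun v hv h => hv (hBad (by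
    rw [Finset.mem_union, Finset.mem_union]; exact Or.inl (Or.inr h)))
  have hs3 : ∀ v ∉ Bad, v ∉ Bad3 := fun v hv h => hv (hBad (by
    rw [Finset.mem_union]; exact Or.inr h))
  have hTyp : ∀ v ∉ Bad1, ∀ b : Ideal (𝓞 L), IsTyp v b →
      b ≠ ⊥ ∧ Ideal.absNorm v.asIdeal ^ 2 ≤ Ideal.absNorm b := fun v hv =>
    (hB1 v hv).2.2.2.2.2.1
  set s := min (r + 1) (finrank K L) with hs
  -- the primes above `Bad`
  have hWBfin : {w : HeightOneSpectrum (𝓞 L) | bl (K := K) w ∈ Bad}.Finite := by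
    have h5 : {w : HeightOneSpectrum (𝓞 L) | bl (K := K) w ∈ Bad} ⊆
        ⋃ v ∈ Bad, HeightOneSpectrum.asIdeal ⁻¹' (Ideal.primesOver v.asIdeal (𝓞 L)) := by
      intro w hw
      rw [Set.mem_iUnion₂]
      exact ⟨bl w, hw, ⟨w.isPrime, bl_over w⟩⟩
    refine Set.Finite.subset (Set.Finite.biUnion Bad.finite_toSet fun v _ => ?_) h5
    have : v.asIdeal.IsMaximal := v.isMaximal
    exact (IsDedekindDomain.primesOver_finite v.asIdeal (𝓞 L)).preimage
      (fun x _ y _ h => HeightOneSpectrum.ext h)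
  set WB := hWBfin.toFinset with hWB
  have hWBm : ∀ w, bl (K := K) w ∈ Bad → w ∈ WB := fun w hw => by
    rw [hWB, Set.Finite.mem_toFinset]; exact hw
  -- the parameters
  set kn : ℝ := (finrank ℚ L : ℝ) with hkn
  have hkn' : kn = finrank ℚ K * finrank K L := by rw [hkn, ← hnk]; push_cast; rfl
  have hkn0 : 0 ≤ kn := Nat.cast_nonneg _
  have hn0 : (1 : ℝ) ≤ finrank ℚ K := by exact_mod_cast hn1
  obtain ⟨η, hη0, hη⟩ : ∃ η : ℝ, 0 < η ∧ η * (kn + WB.card + 1) < κ * finrank ℚ K := by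
    have h5 : 0 < kn + WB.card + 1 := by positivity
    refine ⟨κ * finrank ℚ K / (2 * (kn + WB.card + 1)), by positivity, ?_⟩
    rw [div_mul_eq_mul_div, div_lt_iff₀ (by positivity)]
    have : 0 < κ * finrank ℚ K := by positivity
    nlinarith
  obtain ⟨δ₀, ν₀, C₀, hδ₀, hν₀, hsm⟩ := hB3 η hη0
  set δ := min δ₀ (1 / 8) with hδ
  have hδ0 : 0 < δ := lt_min hδ₀ (by norm_num)
  have hδ8 : δ ≤ 1 / 8 := min_le_right _ _
  obtain ⟨ν₁, C₁, hν₁, hla⟩ := hB2 δ hδ0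
  obtain ⟨hpl1, hpl2⟩ := h4 K L θ a r ha hr η hη0
  obtain ⟨C₂, hC₂, hup⟩ := ev_le (K := K) θ a r
  -- the exponents
  have hexp : kn + 1 / 2 ≤ 2 * ((finrank ℚ K : ℝ) * s - δ) := by
    have h5 : finrank K L + 1 ≤ 2 * s := by omega
    have h6 : ((finrank K L : ℝ) + 1) ≤ 2 * s := by exact_mod_cast h5
    have h7 : (finrank ℚ K : ℝ) * ((finrank K L : ℝ) + 1) ≤ finrank ℚ K * (2 * s) :=
      mul_le_mul_of_nonneg_left h6 (by linarith)
    rw [hkn']
    nlinarith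
  -- the exceptional sets
  set N : ℝ := (finrank ℚ K : ℝ) * (r + 1) with hN
  have hN1 : 1 ≤ N := by
    have : (0 : ℝ) ≤ r := Nat.cast_nonneg r
    rw [hN]
    nlinarith
  let E₁ : InfinitePlace L → ℕ → Set (Fin (r + 1) → 𝓞 K) := fun w B =>
    {c ∈ Bx K (r + 1) B | ‖w.embedding (ev a θ c : L)‖ ≤ (B : ℝ) ^ (1 - η)}
  let E₂ : HeightOneSpectrum (𝓞 L) → ℕ → Set (Fin (r + 1) → 𝓞 K) := fun w B =>
    {c ∈ Bx K (r + 1) B | ∃ e : ℕ, ev a θ c ∈ w.asIdeal ^ e ∧ η * Real.log B ≤ e * lN w ∧ 1 ≤ e}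
  let E₃ : ℕ → Set (Fin (r + 1) → 𝓞 K) := fun B =>
    {c ∈ Bx K (r + 1) B | ∃ W : Finset (HeightOneSpectrum (𝓞 L)),
      (∀ w ∈ W, ∃ v ∉ Bad3, w.asIdeal.LiesOver v.asIdeal ∧
        (Ideal.absNorm v.asIdeal : ℝ) ≤ (B : ℝ) ^ δ₀ ∧ NS a θ c v) ∧
      ∃ e : HeightOneSpectrum (𝓞 L) → ℕ, (∀ w ∈ W, ev a θ c ∈ w.asIdeal ^ e w) ∧
        η * Real.log B ≤ ∑ w ∈ W, e w * lN w}
  let E₄ : ℕ → Set (Fin (r + 1) → 𝓞 K) := fun B =>
    {c ∈ Bx K (r + 1) B | ∃ v ∉ Bad2, (B : ℝ) ^ δ ≤ Ideal.absNorm v.asIdeal ∧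
      (Ideal.absNorm v.asIdeal : ℝ) ≤ (B : ℝ) ^ ((finrank ℚ K : ℝ) * s - δ) ∧ NS a θ c v}
  have hR₁ : Rare N (fun B => ⋃ w ∈ (Finset.univ : Finset (InfinitePlace L)), E₁ w B) :=
    Rare.biUnion _ fun w _ => hpl1 w.embedding
  have hR₂ : Rare N (fun B => ⋃ w ∈ WB, E₂ w B) := Rare.biUnion _ fun w _ => hpl2 w
  have hR₃ : Rare N E₃ := ⟨ν₀, C₀, hν₀, hsm⟩
  have hR₄ : Rare N E₄ := ⟨ν₁, C₁, hν₁, hla⟩
  have hR := ((hR₁.union hR₂).union hR₃).union hR₄
  obtain ⟨M, hM⟩ := exists_nat_gt (C₂ ^ (2 * finrank ℚ L))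
  refine Rare.of_large hN1 hR (max 2 M) (fun B => ?_) (fun B hB => ?_)
  · refine (Bx_finite (K := K) (r + 1) B).subset ?_
    rintro c (((hc | hc) | hc) | hc)
    · obtain ⟨w, -, hc⟩ := Set.mem_iUnion₂.1 hc
      exact hc.1
    · obtain ⟨w, -, hc⟩ := Set.mem_iUnion₂.1 hc
      exact hc.1
    · exact hc.1
    · exact hc.1
  · rintro c ⟨hcB, W, hW, hsum⟩
    by_contra hcon
    rw [Set.mem_union, Set.mem_union, Set.mem_union, not_or, not_or, not_or] at hcon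
    obtain ⟨⟨⟨hc1, hc2⟩, hc3⟩, hc4⟩ := hcon
    have hB2 : 2 ≤ B := (le_max_left _ _).trans hB
    have hBM : M ≤ B := (le_max_right _ _).trans hB
    have hB1 : 1 ≤ B := by omega
    have hBr : (1 : ℝ) ≤ B := by exact_mod_cast hB1
    have hBM' : C₂ ^ (2 * finrank ℚ L) < B := hM.trans_le (by exact_mod_cast hBM)
    have hlow : ∀ w : InfinitePlace L, (B : ℝ) ^ (1 - η) < w (ev a θ c : L) := by
      intro w
      by_contra h
      push Not at h
      refine hc1 (Set.mem_iUnion₂.2 ⟨w, Finset.mem_univ w, hcB, ?_⟩)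
      rw [InfinitePlace.norm_embedding_eq]
      exact h
    have hbad : ∀ w ∈ WB, ∀ e : ℕ, 1 ≤ e → ev a θ c ∈ w.asIdeal ^ e →
        e * lN w < η * Real.log B := by
      intro w hw e he hye
      by_contra h
      push Not at h
      exact hc2 (Set.mem_iUnion₂.2 ⟨w, hw, hcB, e, hye, h, he⟩)
    have hy0 : ev a θ c ≠ 0 := by
      intro h
      obtain ⟨w⟩ : Nonempty (InfinitePlace L) := inferInstance
      have h5 := hlow w
      have hz : w (((0 : 𝓞 L)) : L) = 0 := by simp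
      rw [h, hz] at h5
      have h6 : (0 : ℝ) ≤ (B : ℝ) ^ (1 - η) := by positivity
      linarith
    have hy : Ideal.span {ev a θ c} ≠ 0 := fun h => hy0 (Ideal.span_singleton_eq_bot.1 h)
    have hlarge : ∀ v ∉ Bad, NS a θ c v → (Ideal.absNorm v.asIdeal : ℝ) ≤ (B : ℝ) ^ δ := by
      intro v hv hNS
      by_contra h
      push Not at h
      have h5 := no_large θ a r c hy s B hB1 C₂ δ hC₂ (hup B c hcB) hexp hBM' v
        (hTyp v (hs1 v hv)) hNS
      exact hc4 ⟨hcB, v, hs2 v hv, h.le, h5, hNS⟩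
    have hsmall : ∀ F : Finset (HeightOneSpectrum (𝓞 L)), (∀ w ∈ F, bl (K := K) w ∉ Bad ∧
        (Ideal.absNorm (bl (K := K) w).asIdeal : ℝ) ≤ (B : ℝ) ^ δ ∧ NS a θ c (bl (K := K) w)) →
        ∀ e : HeightOneSpectrum (𝓞 L) → ℕ, (∀ w ∈ F, ev a θ c ∈ w.asIdeal ^ e w) →
          ∑ w ∈ F, e w * lN w < η * Real.log B := by
      intro F hF e he
      by_contra h
      push Not at h
      refine hc3 ⟨hcB, F, fun w hw => ?_, e, he, h⟩
      obtain ⟨h5, h6, h7⟩ := hF w hw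
      exact ⟨bl w, hs3 _ h5, bl_over w, h6.trans (rpow_le_rpow_nat hB1 (min_le_left _ _)), h7⟩
    have hfin := key θ a r c Bad W hW WB hWBm B hB2 η δ hη0 hlow hbad hsmall hlarge
    have hlB : 0 < Real.log B := Real.log_pos (by
      have : (2 : ℝ) ≤ B := by exact_mod_cast hB2
      linarith)
    have h5 : (kn * (1 - η) - (WB.card + 1) * η) * Real.log B ≤
        (finrank K L - κ) * ((finrank ℚ K : ℝ) * Real.log B) := hfin.trans hsum
    have h6 : (finrank K L - κ) * ((finrank ℚ K : ℝ) * Real.log B) =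
        (kn - κ * finrank ℚ K) * Real.log B := by rw [hkn']; ring
    rw [h6] at h5
    have h7 := le_of_mul_le_mul_right h5 hlB
    nlinarith

end Pool.Agent.N97.DR.Core
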